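import Mathlib
import Pool.Prelude.Def_F_438a8d17
import Pool.Agent.Helper24.Odious3.Two3

/-!
# MP_605521_nt: the sum over the primes is three times the sum over the numbers prime to 6, plus a bilinear sum

The weight `Nceb06bb4.signWeight n` is `+1` for odious and `-1` for evil `n`. The sum `N x` of the weights over the
`n < x` prime to 6 has the order of magnitude `x ^ (log 3 / log 4)` (Newman). We evaluate, with this main term, the sum
over the numbers weighted with the truncated von Mangoldt function (it is `3 * N x`), and all type I sums in a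
decomposition of von Mangoldt's function: the sum `P x` over the primes of `± log p` is `3 * N x + B x U W V` up to
`η * N x`, where `B x U W V` is a bilinear sum over `b > U` and `c > V`, and `U`, `V` are powers of `x` whose product is
any power of `x` with exponent less than `log 3 / log 4 - 1 / 2 = 0.2924...`.
-/

namespace Pool.Agent.Results.MP_605521_nt.Bilinear

/-- The number of odious minus the number of evil `n < x` prime to 6. -/
noncomputable def N (x : ℕ) : ℝ :=
  ∑ n ∈ (Finset.range x).filter (fun n => Nat.Coprime n 6), (Nceb06bb4.signWeight n : ℝ)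

/-- The sum over the primes `p < x` of `log p`, with the sign `+` for odious and `-` for evil `p`. -/
noncomputable def P (x : ℕ) : ℝ :=
  ∑ p ∈ (Finset.range x).filter Nat.Prime, (Nceb06bb4.signWeight p : ℝ) * Real.log p

/-- The truncated von Mangoldt function. -/
noncomputable def L (R n : ℕ) : ℝ :=
  ∑ d ∈ n.divisors.filter (fun d => d ≤ R), ((ArithmeticFunction.moebius d : ℤ) : ℝ) * Real.log ((R : ℝ) / d)

/-- The sum of the truncated von Mangoldt function over the `n < x` prime to 6, with the signs. -/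
noncomputable def T (x R : ℕ) : ℝ :=
  ∑ n ∈ (Finset.range x).filter (fun n => Nat.Coprime n 6), (Nceb06bb4.signWeight n : ℝ) * L R n

/-- The cut-off: `1` up to `U`, `0` beyond `W`, and linear in `log d` in between. -/
noncomputable def h (U W d : ℕ) : ℝ :=
  if d ≤ U then 1 else if d ≤ W then (Real.log W - Real.log d) / (Real.log W - Real.log U) else 0

/-- The coefficient of the bilinear sum. -/
noncomputable def α (U W b : ℕ) : ℝ :=
  (if b = 1 then 1 else 0) - ∑ d ∈ b.divisors, ((ArithmeticFunction.moebius d : ℤ) : ℝ) * h U W d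

/-- The bilinear sum: over the pairs `b > U`, `c > V` with `b * c = n < x` prime to 6. -/
noncomputable def B (x U W V : ℕ) : ℝ :=
  ∑ n ∈ (Finset.range x).filter (fun n => Nat.Coprime n 6), (Nceb06bb4.signWeight n : ℝ) *
    ∑ q ∈ n.divisorsAntidiagonal.filter (fun q => U < q.1 ∧ V < q.2),
      α U W q.1 * ArithmeticFunction.vonMangoldt q.2

theorem result (η : ℝ) (hη : 0 < η) :
    (∀ Δ : ℝ, Δ < Real.log 3 / Real.log 4 - 1 / 2 → ∃ R₀ X : ℕ, ∀ x R : ℕ, X ≤ x → R₀ ≤ R →
      (R : ℝ) ≤ (x : ℝ) ^ Δ → |T x R - 3 * N x| ≤ η * N x) ∧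
    (∀ κ κ' ν : ℝ, 0 < κ → κ < κ' → 0 < ν → κ' + ν < Real.log 3 / Real.log 4 - 1 / 2 →
      ∃ X : ℕ, ∀ x U W V : ℕ, X ≤ x →
        U = ⌊(x : ℝ) ^ κ⌋₊ → W = ⌊(x : ℝ) ^ κ'⌋₊ → V = ⌊(x : ℝ) ^ ν⌋₊ →
          (∀ b, |α U W b| ≤ (b.divisors.card : ℝ)) ∧
            |P x - (3 * N x + B x U W V)| ≤ η * N x) :=
  Pool.Agent.Odious24.final7 η hη

end Pool.Agent.Results.MP_605521_nt.Bilinear
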