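import Mathlib
import Pool.Prelude.Def_F_438a8d17
import Pool.Agent.OGM31.Final
import Pool.Agent.OGM31.Contrast

/-!
# MP_605521_nt: odious and evil numbers in the random models of the primes

Select every integer `n` independently; if `n` has no prime factor up to `z n` the probability is
`1 / (W (z n) * log n)`, otherwise it is `0`. Here `z` is nondecreasing.

(1) If `3 ≤ z n ≤ (log n) ^ κ`, where `κ < 1 / (2 - log 3 / log 2) = 2.409...` (Cramér's model after sieving by the
small primes, with a fixed level or, as in Granville's model, with a growing one), then almost surely the selected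
integers have the odious excess `3 * ∑ ε n / log n` (sum over the `n < x` prime to `6`) up to a relative error
`exp (- c * √(log x))`; it is positive for all large `x`, of exact order `x ^ (log 3 / log 4) / log x`, and the `a n` of
the problem, formed with the selected integers in place of the primes, is positive for all large `n`.

(2) If `z n ≤ 2` (Cramér's model itself, or only the even numbers are removed), then almost surely this `a n` is
unbounded above and below.
-/

set_option autoImplicit false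

open MeasureTheory ProbabilityTheory Filter Topology

namespace Pool.Agent.Results.MP_605521_nt.GranvilleModels

/-- The product of `1 - 1 / p` over the primes `p ≤ z`. -/
noncomputable def W (z : ℕ) : ℝ := ∏ p ∈ (Finset.range (z + 1)).filter Nat.Prime, (1 - 1 / (p : ℝ))

lemma sift_three (n : ℕ) : OGM31.Sift 3 n ↔ n.Coprime 6 := by
  have h6 : (6 : ℕ) = 2 * 3 := by norm_num
  rw [h6, Nat.coprime_mul_iff_right, Nat.coprime_comm, Nat.Prime.coprime_iff_not_dvd Nat.prime_two,
    Nat.coprime_comm (n := n), Nat.Prime.coprime_iff_not_dvd Nat.prime_three]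
  unfold OGM31.Sift
  constructor
  · intro h
    exact ⟨h 2 Nat.prime_two (by norm_num), h 3 Nat.prime_three (by norm_num)⟩
  · rintro ⟨h2, h3⟩ p hp hp3
    have h5 := hp.two_le
    have h7 : p = 2 ∨ p = 3 := by omega
    rcases h7 with rfl | rfl
    · exact h2
    · exact h3

lemma main_term (x : ℕ) : OGM31.MM x =
    ∑ n ∈ (Finset.range x).filter (fun n => n.Coprime 6),
      (Nceb06bb4.signWeight n : ℝ) / Real.log n := by
  classical
  unfold OGM31.MM OGM31.sw OGM31.gg OGM31.e
  rw [Finset.sum_filter]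
  refine Finset.sum_congr rfl (fun n _ => ?_)
  by_cases h : n.Coprime 6
  · rw [if_pos h, if_pos ((sift_three n).mpr h)]
    ring
  · rw [if_neg h, if_neg (fun h' => h ((sift_three n).mp h'))]
    ring

/-- A bounded nondecreasing sequence of natural numbers is eventually constant. -/
lemma eventually_const {z : ℕ → ℕ} (hz : Monotone z) (h2 : ∀ n, z n ≤ 2) :
    ∃ c, c ≤ 2 ∧ ∀ᶠ n : ℕ in atTop, z n = c := by
  by_cases h : ∃ n, 2 ≤ z n
  · obtain ⟨n, hn⟩ := h
    refine ⟨2, le_rfl, eventually_atTop.mpr ⟨n, fun m hm => ?_⟩⟩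
    have := hz hm
    have := h2 m
    omega
  · push Not at h
    by_cases h' : ∃ n, 1 ≤ z n
    · obtain ⟨n, hn⟩ := h'
      refine ⟨1, by norm_num, eventually_atTop.mpr ⟨n, fun m hm => ?_⟩⟩
      have := hz hm
      have := h m
      omega
    · push Not at h'
      exact ⟨0, by norm_num, Eventually.of_forall (fun m => by
        have := h' m
        omega)⟩

theorem result {Ω : Type*} [MeasurableSpace Ω] (μ : Measure Ω) [IsProbabilityMeasure μ]
    (A : ℕ → Set Ω) (hA : ∀ n, MeasurableSet (A n)) (hind : iIndepSet A μ)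
    (z : ℕ → ℕ) (hz : Monotone z)
    (h1 : ∀ᶠ n : ℕ in atTop, (∀ p : ℕ, p.Prime → p ≤ z n → ¬ p ∣ n) →
      μ.real (A n) = 1 / (W (z n) * Real.log n))
    (h0 : ∀ᶠ n : ℕ in atTop, (∃ p : ℕ, p.Prime ∧ p ≤ z n ∧ p ∣ n) → μ.real (A n) = 0) :
    (∀ κ : ℝ, κ < 1 / (2 - Real.log 3 / Real.log 2) →
      (∀ᶠ n : ℕ in atTop, 3 ≤ z n ∧ (z n : ℝ) ≤ Real.log n ^ κ) →
      ∀ᵐ ω ∂μ,
        (∀ᶠ x : ℕ in atTop,
          |∑ n ∈ Finset.range x, (A n).indicator (fun _ => (Nceb06bb4.signWeight n : ℝ)) ω -
            3 * ∑ n ∈ (Finset.range x).filter (fun n => n.Coprime 6),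
              (Nceb06bb4.signWeight n : ℝ) / Real.log n| ≤
            (x : ℝ) ^ (Real.log 3 / Real.log 4) * Real.exp (-(Real.sqrt (Real.log x)) / 30000)) ∧
        (∀ᶠ x : ℕ in atTop,
          1 / 20 * ((x : ℝ) ^ (Real.log 3 / Real.log 4) / Real.log x) ≤
            ∑ n ∈ Finset.range x, (A n).indicator (fun _ => (Nceb06bb4.signWeight n : ℝ)) ω ∧
          ∑ n ∈ Finset.range x, (A n).indicator (fun _ => (Nceb06bb4.signWeight n : ℝ)) ω ≤
            40 * ((x : ℝ) ^ (Real.log 3 / Real.log 4) / Real.log x)) ∧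
        (∀ᶠ n : ℕ in atTop,
          1 / 20 * ((n : ℝ) ^ (Real.log 3 / Real.log 4) / Real.log n) ≤
            ((∑ i ∈ Finset.range n, Nceb06bb4.signWeight (Nat.nth (fun m => ω ∈ A m) i) : ℤ) : ℝ))) ∧
    ((∀ n, z n ≤ 2) →
      ∀ᵐ ω ∂μ, ∀ K : ℤ,
        (∃ n : ℕ, K < ∑ i ∈ Finset.range n, Nceb06bb4.signWeight (Nat.nth (fun m => ω ∈ A m) i)) ∧
        (∃ n : ℕ, ∑ i ∈ Finset.range n, Nceb06bb4.signWeight (Nat.nth (fun m => ω ∈ A m) i) < K)) := by
  have h0' : ∀ᶠ n : ℕ in atTop, ¬ OGM31.Sift (z n) n → μ.real (A n) = 0 := by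
    filter_upwards [h0] with n hn hns
    refine hn ?_
    unfold OGM31.Sift at hns
    push Not at hns
    exact hns
  have hrw : ∀ (ω : Ω) (x : ℕ),
      ∑ n ∈ Finset.range x, (A n).indicator (fun _ => (Nceb06bb4.signWeight n : ℝ)) ω =
        ∑ n ∈ Finset.range x, (Set.ofPred (fun m => ω ∈ A m)).indicator (fun n => OGM31.e n) n := by
    intro ω x
    refine Finset.sum_congr rfl (fun n _ => ?_)
    by_cases h : ω ∈ A n
    · rw [Set.indicator_of_mem h, Set.indicator_of_mem (show n ∈ Set.ofPred (fun m => ω ∈ A m) from h)]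
      rfl
    · rw [Set.indicator_of_notMem h,
        Set.indicator_of_notMem (show n ∉ Set.ofPred (fun m => ω ∈ A m) from h)]
  constructor
  · intro κ hκ hzr
    have hm := OGM31.main μ A hA hind κ hκ z hz hzr h1 h0'
    filter_upwards [hm] with ω hω
    have h2 := OGM31.order_of hω
    refine ⟨?_, h2, ?_⟩
    · filter_upwards [hω] with x hx
      rw [main_term] at hx
      exact hx
    · refine OGM31.index_of (P := fun m => ω ∈ A m) ?_
      filter_upwards [h2] with x hx
      exact hx.1.trans (le_of_eq (hrw ω x))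
  · intro hz2
    obtain ⟨c, hc, hcz⟩ := eventually_const hz hz2
    have hm := OGM31.contrast μ A hA hind c hc
      (by
        filter_upwards [h1, hcz] with n hn hn2
        rw [hn2] at hn
        exact hn)
      (by
        filter_upwards [h0', hcz] with n hn hn2
        rw [hn2] at hn
        exact hn)
    filter_upwards [hm] with ω hω
    refine OGM31.index_osc (P := fun m => ω ∈ A m) (fun K => ?_)
    obtain ⟨⟨x, hx⟩, ⟨y, hy⟩⟩ := hω K
    exact ⟨⟨x, by rw [← hrw]; exact hx⟩, ⟨y, by rw [← hrw]; exact hy⟩⟩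

end Pool.Agent.Results.MP_605521_nt.GranvilleModels
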