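import Mathlib
import Pool.Prelude.Def_F_438a8d17
import Pool.Agent.Helper24.Odious2.Fin

/-!
# MP_605521_nt: the odious excess in residue classes on average, and for Selberg weights

The weight `Nceb06bb4.signWeight n` is `+1` for odious and `-1` for evil `n`. Among the numbers `n < x` prime to 6 the
odious ones win by `N x 1 0`, which has the order of magnitude `x ^ (log 3 / log 4)` (Newman). We show that this excess is
equidistributed in residue classes to moduli prime to 6, on average over the moduli up to `x ^ Δ` for every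
`Δ < log 3 / log 4 - 1 / 2 = 0.2924...`, with squares of the divisor function as weights, and deduce that the odious
numbers win, by at least `x ^ (log 3 / log 4) / (50 * log x)`, for every system of Selberg weights of level `x ^ Δ`,
that is, for non-negative weights on the integers whose mean value is as small as that of the primes.
-/

namespace Pool.Agent.Results.MP_605521_nt.LevelOfDistribution

/-- The number of odious minus the number of evil `n < y` with `n ≡ b (mod d)` which are prime to 6. -/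
noncomputable def N (y d b : ℕ) : ℤ :=
  ∑ n ∈ (Finset.range y).filter (fun n => Nat.Coprime n 6 ∧ n ≡ b [MOD d]), Nceb06bb4.signWeight n

/-- The moduli: the numbers `1 ≤ d ≤ D` prime to 6. -/
def M (D : ℕ) : Finset ℕ := (Finset.Icc 1 D).filter (fun d => Nat.Coprime d 6)

/-- The number of odious minus the number of evil `n < x` prime to 6, the number `n` counted with the weight
`(∑ d ∣ n, w d) ^ 2`. -/
noncomputable def S (w : ℕ → ℝ) (x : ℕ) : ℝ :=
  ∑ n ∈ (Finset.range x).filter (fun n => Nat.Coprime n 6), (Nceb06bb4.signWeight n : ℝ) *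
    (∑ d ∈ n.divisors, w d) ^ 2

/-- The quadratic form of the Selberg sieve. -/
noncomputable def Q (w : ℕ → ℝ) (R : ℕ) : ℝ := ∑ d ∈ M R, ∑ e ∈ M R, w d * w e / (Nat.lcm d e : ℝ)

theorem result (Δ : ℝ) (hΔ : Δ < Real.log 3 / Real.log 4 - 1 / 2) :
    ∃ X : ℕ, ∀ x : ℕ, X ≤ x →
      ((x : ℝ) ^ (Real.log 3 / Real.log 4) / 40 ≤ (N x 1 0 : ℝ) ∧
        (N x 1 0 : ℝ) ≤ 3 * (x : ℝ) ^ (Real.log 3 / Real.log 4)) ∧
      (∀ D : ℕ, (D : ℝ) ≤ (x : ℝ) ^ Δ → ∀ y b : ℕ → ℕ, (∀ d, y d ≤ x) →
        ∑ d ∈ M D, (d.divisors.card : ℝ) ^ 2 * |(N (y d) d (b d) : ℝ) - (N (y d) 1 0 : ℝ) / d| ≤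
          (x : ℝ) ^ (Real.log 3 / Real.log 4) * Real.exp (-(Real.sqrt (Real.log x)) / 2000)) ∧
      (∀ R : ℕ, (R : ℝ) ^ 2 ≤ (x : ℝ) ^ Δ → ∀ w : ℕ → ℝ, w 1 = 1 → (∀ d, |w d| ≤ 1) →
        (∀ d, w d ≠ 0 → d ≤ R ∧ Squarefree d ∧ Nat.Coprime d 6) →
        |S w x - (N x 1 0 : ℝ) * Q w R| ≤
          (x : ℝ) ^ (Real.log 3 / Real.log 4) * Real.exp (-(Real.sqrt (Real.log x)) / 2000) ∧
        1 / Real.log x ≤ Q w R ∧
        (x : ℝ) ^ (Real.log 3 / Real.log 4) / (50 * Real.log x) ≤ S w x) :=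
  Pool.Agent.Odious24.final2 Δ hΔ

end Pool.Agent.Results.MP_605521_nt.LevelOfDistribution
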