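import Mathlib
import Pool.Prelude.Def_F_438a8d17
import Pool.Agent.Helper24.Odious.Asym

/-!
# MP_605521_nt: the odious excess among numbers without small prime factors

The weight `Nceb06bb4.signWeight n` is `+1` for odious and `-1` for evil `n`. Let `F x z` be its sum over the natural
numbers `n < x` having no prime factor `p ≤ z`, and let `W z` be the product of `1 - 1 / p` over the primes `p ≤ z`.
For every `κ < 1 / (2 - log 3 / log 2) = 2.409...` and all large `x`, uniformly for `3 ≤ z ≤ (log x) ^ κ`, the odious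
numbers win among the sifted numbers, and `F x z` has the exact order of magnitude `x ^ (log 3 / log 4) * W z`.
Moreover `F x z` is `3 * W z * F x 3` up to a relative error `exp (- c * √(log x))`.
-/

namespace Pool.Agent.Results.MP_605521_nt.SiftedOdious

open Classical in
/-- The number of odious minus the number of evil `n < x` which have no prime factor up to `z`. -/
noncomputable def F (x z : ℕ) : ℤ :=
  ∑ n ∈ (Finset.range x).filter (fun n => ∀ p : ℕ, p.Prime → p ≤ z → ¬ p ∣ n), Nceb06bb4.signWeight n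

/-- The product of `1 - 1 / p` over the primes `p ≤ z`. -/
noncomputable def W (z : ℕ) : ℝ := ∏ p ∈ (Finset.range (z + 1)).filter Nat.Prime, (1 - 1 / (p : ℝ))

theorem result (κ : ℝ) (hκ : κ < 1 / (2 - Real.log 3 / Real.log 2)) :
    ∃ X : ℕ, ∀ x z : ℕ, X ≤ x → 3 ≤ z → (z : ℝ) ≤ Real.log x ^ κ →
      3 / 80 * (x : ℝ) ^ (Real.log 3 / Real.log 4) * W z ≤ (F x z : ℝ) ∧
      (F x z : ℝ) ≤ 10 * (x : ℝ) ^ (Real.log 3 / Real.log 4) * W z ∧
      |(F x z : ℝ) - 3 * W z * (F x 3 : ℝ)| ≤
        (x : ℝ) ^ (Real.log 3 / Real.log 4) * Real.exp (-(Real.sqrt (Real.log x)) / 20000) :=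
  Pool.Agent.Odious24.final κ hκ

end Pool.Agent.Results.MP_605521_nt.SiftedOdious
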